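import Mathlib

set_option autoImplicit false

namespace Pool.Agent.Results.MP_5ab447_lc.Bound

open Finset Function

/-- Leaves of the complete `d`-ary tree of height `h`; they also serve as the `d ^ h` teams. -/
def Leaf (d : ℕ) : ℕ → Type
  | 0 => Unit
  | h + 1 => Fin d × Leaf d h

/-- Assignments of marks to all inner nodes. -/
def Mark (d : ℕ) : ℕ → Type
  | 0 => Unit
  | h + 1 => Fin d × (Fin d → Mark d h)

open Classical in
/-- The label of the root: the Condorcet winner of the children's labels if there is one, else the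
label of the marked child. -/
noncomputable def win {d : ℕ} {N : Type} (T : N → N → Prop) :
    (h : ℕ) → (Leaf d h → N) → Mark d h → N
  | 0, σ, _ => σ ()
  | h + 1, σ, μ =>
    let A := fun i => win T h (fun l => σ (i, l)) (μ.2 i)
    if H : ∃ i, ∀ j, A j ≠ A i → T (A i) (A j) then A H.choose else A μ.1

def Tournament {N : Type} (T : N → N → Prop) : Prop :=
  (∀ x, ¬ T x x) ∧ ∀ x y, x ≠ y → (T x y ↔ ¬ T y x)

/-- Probability that the winner lies in `S`. -/
noncomputable def r (d h : ℕ) (T : Leaf d h → Leaf d h → Prop) (S : Set (Leaf d h)) : ℝ :=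
  (Nat.card {z : Equiv.Perm (Leaf d h) × Mark d h // win T h z.1 z.2 ∈ S} : ℝ) /
    Nat.card (Equiv.Perm (Leaf d h) × Mark d h)

/-- The manipulability `α_{d,k}`: supremum of `r_S(T') - r_S(T)`. -/
noncomputable def α (d k : ℕ) : ℝ :=
  sSup {x | ∃ (h : ℕ) (T T' : Leaf d h → Leaf d h → Prop) (S : Set (Leaf d h)), 1 ≤ h ∧
    Tournament T ∧ Tournament T' ∧ S.ncard ≤ k ∧
    (∀ a b, ¬ (a ∈ S ∧ b ∈ S) → (T a b ↔ T' a b)) ∧ x = r d h T' S - r d h T S}

instance fl (d : ℕ) : (h : ℕ) → Fintype (Leaf d h)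
  | 0 => inferInstanceAs (Fintype Unit)
  | h + 1 => @instFintypeProd _ _ _ (fl d h)

instance dl (d : ℕ) : (h : ℕ) → DecidableEq (Leaf d h)
  | 0 => inferInstanceAs (DecidableEq Unit)
  | h + 1 => @instDecidableEqProd _ _ _ (dl d h)

instance fm (d : ℕ) : (h : ℕ) → Fintype (Mark d h)
  | 0 => inferInstanceAs (Fintype Unit)
  | h + 1 => @instFintypeProd _ _ _ (@Pi.instFintype _ _ _ _ fun _ => fm d h)

section
variable {d K : ℕ} (b : Fin K → Fin K → Bool)

def node (A : Fin d → Fin K) (m : Fin d) : Fin K :=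
  ((List.finRange K).find? fun t => (∃ i, A i = t) ∧ ∀ j, A j ≠ t → b t (A j)).getD (A m)

def lift {N : Type} (τ : N → Fin K) (ρ : N → ℕ) (x y : N) : Prop :=
  if τ x = τ y then ρ x < ρ y else b (τ x) (τ y)

theorem tour {N : Type} (τ : N → Fin K) {ρ : N → ℕ} (hρ : Injective ρ)
    (hb : ∀ s t, s ≠ t → b s t = !b t s) : Tournament (lift b τ ρ) := by
  refine ⟨by simp [lift], fun x y n => ?_⟩
  have := hρ.ne n
  by_cases e : τ x = τ y
  · simp [lift, e]; omega
  · simp [lift, e, Ne.symm e, hb _ _ e]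

open Classical in
theorem step {N : Type} (τ : N → Fin K) {ρ : N → ℕ} (hρ : Injective ρ)
    (hb : ∀ s t, s ≠ t → b s t = !b t s) (A : Fin d → N) (m : Fin d) :
    τ (if H : ∃ i, ∀ j, A j ≠ A i → lift b τ ρ (A i) (A j) then A H.choose else A m) =
      node b (fun i => τ (A i)) m := by
  unfold node
  split_ifs with H
  · have h := H.choose_spec
    generalize H.choose = i at h
    have h1 : ∀ j, τ (A j) ≠ τ (A i) → b (τ (A i)) (τ (A j)) := fun j n => by
      simpa [lift, n.symm] using h j fun e => n (e ▸ rfl)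
    cases e : (List.finRange K).find? _ with
    | none => simpa using (by simpa using List.find?_eq_none.1 e (τ (A i)) (by simp) :
        ∃ j, ¬ τ (A j) = τ (A i) ∧ _).elim fun j hj => by simp [h1 j hj.1] at hj
    | some t =>
      obtain ⟨⟨j, rfl⟩, h2⟩ : (∃ i, τ (A i) = t) ∧ ∀ j, τ (A j) ≠ t → b t (τ (A j)) := by
        simpa using List.find?_some e
      by_contra n
      have := hb _ _ n
      simp [h1 j (Ne.symm n), h2 i n] at this
  · cases e : (List.finRange K).find? _ with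
    | none => rfl
    | some t =>
      obtain ⟨⟨j, rfl⟩, h2⟩ : (∃ i, τ (A i) = t) ∧ ∀ j, τ (A j) ≠ t → b t (τ (A j)) := by
        simpa using List.find?_some e
      obtain ⟨i, h3, h4⟩ := exists_min_image (univ.filter fun i => τ (A i) = τ (A j))
        (fun i => ρ (A i)) ⟨j, by simp⟩
      simp only [mem_filter, mem_univ, true_and] at h3 h4
      refine (H ⟨i, fun l n => ?_⟩).elim
      by_cases e' : τ (A l) = τ (A j)
      · simpa [lift, h3, e'] using (h4 l e').lt_of_ne (hρ.ne n.symm)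
      · simpa [lift, h3, Ne.symm e'] using h2 l e'

def hor (P : Fin K → ℕ) : (n : ℕ) → ((Fin n → Fin K) → ℕ) → ℕ
  | 0, f => f ![]
  | n + 1, f => ((List.finRange K).map fun a => P a * hor P n fun w => f (Fin.cons a w)).sum

theorem hor_eq (P : Fin K → ℕ) (n : ℕ) : ∀ f, hor P n f = ∑ w, (∏ i, P (w i)) * f w := by
  induction n with
  | zero => exact fun f => by simpa [hor] using congrArg f (Subsingleton.elim _ _)
  | succ n ih =>
    intro f
    rw [hor, ← Fin.sum_univ_def, ← (Fin.consEquiv fun _ => Fin K).sum_comp, Fintype.sum_prod_type]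
    simp [ih, Fin.prod_univ_succ, mul_sum, mul_assoc, Fin.consEquiv]

def cntm (d : ℕ) (Q : Fin K → Bool) (w : Fin d → Fin K) : ℕ :=
  ((List.finRange d).map fun m => if Q (node b w m) then 1 else 0).sum

def big (d : ℕ) (e : Fin K → ℕ) (Q : Fin K → Bool) : ℕ :=
  hor (fun l => hor (fun t => (2 ^ 50) ^ e t) d (cntm b d (· = l))) d (cntm b d Q)

end

theorem digit {Ω : Type} [Fintype Ω] (E : Ω → ℕ) (Q : Ω → Prop) [DecidablePred Q] (B k : ℕ)
    (h : Fintype.card Ω < B) :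
    (∑ z, if Q z then B ^ E z else 0) / B ^ k % B = #{z | Q z ∧ E z = k} := by
  have h0 : 0 < B := by omega
  have : (∑ z, if Q z then B ^ E z else 0) = (∑ z, if Q z ∧ E z < k then B ^ E z else 0) +
      B ^ k * (#{z | Q z ∧ E z = k} + B * ∑ z, if Q z ∧ k < E z then B ^ (E z - k - 1) else 0) := by
    rw [card_filter, mul_sum, ← sum_add_distrib, mul_sum, ← sum_add_distrib]
    refine sum_congr rfl fun z _ => ?_
    by_cases q : Q z
    · rcases lt_trichotomy (E z) k with l | l | l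
      · simp [q, l, l.ne, l.not_gt]
      · simp [q, l]
      · simp [q, l, l.ne', l.not_gt, ← pow_succ', ← pow_add]; congr 1; omega
    · simp [q]
  have h1 : (∑ z, if Q z ∧ E z < k then B ^ E z else 0) < B ^ k := by
    rcases k with _ | k
    · simp
    refine (sum_le_card_nsmul _ _ (B ^ k) fun z _ => ?_).trans_lt ?_
    · split_ifs with l
      exacts [Nat.pow_le_pow_right h0 (by omega), Nat.zero_le _]
    · rw [pow_succ', smul_eq_mul]
      exact Nat.mul_lt_mul_of_pos_right h (by positivity)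
  rw [this, Nat.add_mul_div_left _ _ (by positivity), Nat.div_eq_of_lt h1, zero_add,
    Nat.add_mul_mod_self_left, Nat.mod_eq_of_lt ((card_le_univ _).trans_lt h)]

section
variable {d K : ℕ} (b : Fin K → Fin K → Bool)

def W (w : Leaf d 2 → Fin K) (μ : Mark d 2) : Fin K :=
  node b (fun i => node b (fun j => w (i, j, ())) (μ.2 i).1) μ.1

theorem fib {X : Type} [Fintype X] (lab : X → Fin K) (f : X → ℕ) (g : (Fin d → Fin K) → ℕ) :
    ∑ l, (∏ i, ∑ y, f y * if lab y = l i then 1 else 0) * g l =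
      ∑ x : Fin d → X, (∏ i, f (x i)) * g (lab ∘ x) := by
  simp only [prod_univ_sum, Fintype.piFinset_univ, sum_mul]
  rw [sum_comm]
  refine sum_congr rfl fun x _ => ?_
  rw [sum_eq_single (lab ∘ x) (fun l _ n => ?_) (by simp)]
  · simp
  · obtain ⟨i, hi⟩ := ne_iff.1 n
    rw [prod_eq_zero (mem_univ i) (by simp [show lab (x i) ≠ l i from hi.symm]), zero_mul]

theorem big_eq (e : Fin K → ℕ) (Q : Fin K → Bool) : big b d e Q =
    ∑ z : (Leaf d 2 → Fin K) × Mark d 2,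
      if Q (W b z.1 z.2) then (2 ^ 50) ^ ∑ x, e (z.1 x) else 0 := by
  have := fib (fun y : (Fin d → Fin K) × Fin d => node b y.1 y.2)
    (fun y => ∏ j, (2 ^ 50) ^ e (y.1 j)) (cntm b d Q)
  simp only [Fintype.sum_prod_type, ← mul_sum] at this
  simp only [big, hor_eq, cntm, ← Fin.sum_univ_def, decide_eq_true_eq] at this ⊢
  rw [this]
  simp only [mul_sum]
  rw [← Fintype.sum_prod_type']
  refine Fintype.sum_equiv (ι := (Fin d → (Fin d → Fin K) × Fin d) × Fin d)
    (κ := (Leaf d 2 → Fin K) × Mark d 2)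
    { toFun := fun z => (fun l => (z.1 l.1).1 l.2.1, (z.2, fun i => ((z.1 i).2, fun _ => ())))
      invFun := fun z => (fun i => (fun j => z.1 (i, j, ()), (z.2.2 i).1), z.2.1)
      left_inv := fun _ => rfl
      right_inv := fun _ => rfl } _ _ fun z => ?_
  have : ∀ f : Leaf d 2 → ℕ, ∑ x, f x = ∑ i, ∑ j, f (i, j, ()) := fun f =>
    (Fintype.sum_prod_type (α₂ := Fin d × Unit) f).trans (by simp [Fintype.sum_prod_type]; rfl)
  simp only [this, ← prod_pow_eq_pow_sum, mul_ite, mul_one, mul_zero]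
  rfl

open Classical in
theorem count (τ : Leaf d 2 → Fin K) {ρ : Leaf d 2 → ℕ} (hρ : Injective ρ)
    (hb : ∀ s t, s ≠ t → b s t = !b t s) (e : Fin K → ℕ)
    (hu : ∀ w : Leaf d 2 → Fin K, ∑ x, e (w x) = ∑ x, e (τ x) →
      ∀ t, #{x | w x = t} = #{x | τ x = t})
    (hc : Fintype.card ((Leaf d 2 → Fin K) × Mark d 2) < 2 ^ 50) (Q : Fin K → Bool) :
    Nat.card {z : Equiv.Perm (Leaf d 2) × Mark d 2 // win (lift b τ ρ) 2 z.1 z.2 ∈
      {x | Q (τ x)}} = (big b d e Q / (2 ^ 50) ^ (∑ x, e (τ x)) % 2 ^ 50) *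
        #{σ : Equiv.Perm (Leaf d 2) | τ ∘ σ = τ} := by
  have h1 : ∀ (σ : Leaf d 2 → Leaf d 2) (μ : Mark d 2), τ (win (lift b τ ρ) 2 σ μ) = W b (τ ∘ σ) μ := fun σ μ =>
    (step b τ hρ hb _ _).trans (congrArg (node b · μ.1) (funext fun i => step b τ hρ hb _ _))
  rw [big_eq, digit _ _ _ _ hc, Nat.card_eq_fintype_card, Fintype.card_subtype,
    card_eq_sum_card_fiberwise (f := fun z => (τ ∘ z.1, z.2))
      (t := {z | Q (W b z.1 z.2) ∧ ∑ x, e (z.1 x) = ∑ x, e (τ x)}), ← smul_eq_mul, ← sum_const]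
  · refine sum_congr rfl ?_
    rintro ⟨w, μ⟩ h
    simp only [mem_filter, mem_univ, true_and] at h
    let s : Equiv.Perm (Leaf d 2) := Equiv.ofFiberEquiv (f := w) (g := τ) fun t =>
      Fintype.equivOfCardEq (by simpa [Fintype.card_subtype] using hu w h.2 t)
    have hs : ∀ x, τ (s x) = w x := Equiv.ofFiberEquiv_map _
    refine (card_nbij' (fun σ => (σ * s, μ)) (fun z => z.1 * s⁻¹) ?_ ?_ ?_ ?_).symm
    · intro σ hσ
      have : τ ∘ ⇑(σ * s) = w := funext fun x => (congrFun (by simpa using hσ) (s x)).trans (hs x)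
      simpa [h1, this, -Equiv.Perm.coe_mul] using h.1
    · rintro ⟨σ, ν⟩ hσ
      simp only [coe_filter, mem_filter, Prod.mk.injEq, Set.mem_ofPred_eq, mem_univ,
        true_and] at hσ ⊢
      funext x
      exact (congrFun hσ.2.1 _).trans ((hs _).symm.trans (by simp))
    · intro σ _; simp
    · rintro ⟨σ, ν⟩ hσ
      simp only [coe_filter, Prod.mk.injEq, Set.mem_ofPred_eq] at hσ
      simp [hσ.2.2]
  · rintro ⟨σ, μ⟩ h
    simp only [coe_filter, Set.mem_ofPred_eq, mem_univ, true_and, h1] at h ⊢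
    exact ⟨h, Equiv.sum_comp σ fun x => e (τ x)⟩

theorem ratio (τ : Leaf d 2 → Fin K) {ρ : Leaf d 2 → ℕ} (hρ : Injective ρ)
    (hb : ∀ s t, s ≠ t → b s t = !b t s) (e : Fin K → ℕ)
    (hu : ∀ w : Leaf d 2 → Fin K, ∑ x, e (w x) = ∑ x, e (τ x) →
      ∀ t, #{x | w x = t} = #{x | τ x = t})
    (hc : Fintype.card ((Leaf d 2 → Fin K) × Mark d 2) < 2 ^ 50) (Q : Fin K → Bool) {E p q : ℕ}
    (hE : ∑ x, e (τ x) = E) (hp : big b d e Q / (2 ^ 50) ^ E % 2 ^ 50 = p)
    (hq : big b d e (fun _ => true) / (2 ^ 50) ^ E % 2 ^ 50 = q) :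
    r d 2 (lift b τ ρ) {x | Q (τ x)} = p / q := by
  classical
  have h := count b τ hρ hb e hu hc fun _ => true
  rw [Nat.card_congr (Equiv.subtypeUnivEquiv (by simp))] at h
  rw [r, count b τ hρ hb e hu hc Q, h, hE, hp, hq]
  push_cast
  exact mul_div_mul_right _ _ (Nat.cast_ne_zero.2 (card_pos.2 ⟨1, by simp⟩).ne')

theorem sum_cnt {X : Type} [Fintype X] (w : X → Fin K) (e : Fin K → ℕ) :
    ∑ x, e (w x) = ∑ t, #{x | w x = t} * e t := by
  rw [← sum_fiberwise univ w]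
  exact sum_congr rfl fun t _ => by rw [sum_congr rfl (g := fun _ => e t) (by simp +contextual)]; simp

end

theorem le_α {d k h : ℕ} {T T' : Leaf d h → Leaf d h → Prop} {S : Set (Leaf d h)} (h1 : 1 ≤ h)
    (h2 : Tournament T) (h3 : Tournament T') (h4 : S.ncard ≤ k)
    (h5 : ∀ a b, ¬ (a ∈ S ∧ b ∈ S) → (T a b ↔ T' a b)) : r d h T' S - r d h T S ≤ α d k := by
  refine le_csSup ⟨1, ?_⟩ ⟨h, T, T', S, h1, h2, h3, h4, h5, rfl⟩
  rintro _ ⟨h, T, T', S, -, -, -, -, -, rfl⟩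
  have : r d h T' S ≤ 1 := div_le_one_of_le₀ (Nat.cast_le.2 (by
    classical exact Finite.card_subtype_le _)) (by positivity)
  have : 0 ≤ r d h T S := by unfold r; positivity
  linarith

theorem cw {d : ℕ} {N : Type} {T : N → N → Prop} (hT : Tournament T) {x : N}
    (hx : ∀ y, y ≠ x → T x y) : ∀ (h : ℕ) (σ : Leaf d h → N) (μ : Mark d h), (∃ l, σ l = x) →
      win T h σ μ = x
  | 0, _, _, ⟨_, e⟩ => e
  | h + 1, σ, μ, ⟨⟨i, l⟩, e⟩ => by
    have h1 := cw hT hx h (fun l => σ (i, l)) (μ.2 i) ⟨l, e⟩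
    simp only [win]
    split_ifs with H
    · by_contra n
      have := H.choose_spec i (by rw [h1]; exact Ne.symm n)
      rw [h1] at this
      exact (hT.2 _ _ n).1 this (hx _ n)
    · exact (H ⟨i, fun j n => by rw [h1] at n ⊢; exact hx _ n⟩).elim

def b4 (x : Bool) : Fin 5 → Fin 5 → Bool :=
  ![![false, false, x, false, true], ![true, false, x, false, true], ![!x, !x, false, true, true],
    ![true, true, false, false, true], ![false, false, false, false, false]]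

def Q3 (t : Fin 5) : Bool := t < 3

theorem hb4 : ∀ x s t, s ≠ t → b4 x s t = !b4 x t s := by decide

instance nm (d : ℕ) [NeZero d] : (h : ℕ) → Inhabited (Mark d h)
  | 0 => ⟨()⟩
  | h + 1 => ⟨(0, fun _ => (nm d h).default)⟩

theorem gen {d k h : ℕ} [NeZero d] (h1 : 1 ≤ h) (τ : Leaf d h → Fin 5) {ρ : Leaf d h → ℕ}
    (hρ : Injective ρ) (x : Leaf d h) (hx : ∀ y, τ y = 2 ↔ y = x)
    (hS : {y | Q3 (τ y)}.ncard ≤ k) :
    1 - r d h (lift (b4 true) τ ρ) {y | Q3 (τ y)} ≤ α d k := by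
  have h2 := (hx x).2 rfl
  have := le_α (S := {y | Q3 (τ y)}) h1 (tour _ τ hρ (hb4 true)) (tour _ τ hρ (hb4 false)) hS
    fun a b n => by
      have : ∀ s t, ¬ (Q3 s ∧ Q3 t) → b4 true s t = b4 false s t := by decide
      simp [lift, this _ _ n]
  rwa [r, Nat.card_congr (Equiv.subtypeUnivEquiv fun z => ?_), div_self (by
    exact_mod_cast Nat.card_pos.ne')] at this
  rw [cw (tour _ τ hρ (hb4 false)) (x := x) (fun y n => ?_) h _ _ (z.1.surjective x)]
  · simp [h2, Q3]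
  · have : ∀ t, t ≠ 2 → b4 false 2 t := by decide
    simp [lift, h2, this _ (mt (hx y).1 n), Ne.symm (mt (hx y).1 n)]

theorem ncard_le {N : Type} {ρ : N → ℕ} (hρ : Injective ρ) {S : Set N} (n : ℕ)
    (h : ∀ x ∈ S, ρ x < n) : S.ncard ≤ n := by
  simpa using Set.ncard_le_ncard_of_injOn (t := Set.Iio n) ρ h hρ.injOn (Set.finite_Iio n)

def rk {d : ℕ} (x : Leaf d 2) : ℕ := d * x.1 + x.2.1

def ty {d : ℕ} (x : Leaf d 2) : Fin 5 := [0, 1, 2, 3, 3].getD (rk x) 4

def wt : Fin 5 → ℕ := ![19, 12, 18, 14, 0]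

theorem two {d k p q : ℕ} [NeZero d] (hk : 3 ≤ k) (hρ : Injective (rk (d := d)))
    (x : Leaf d 2) (hx : ∀ y, ty y = 2 ↔ y = x) (h3 : ∀ y : Leaf d 2, Q3 (ty y) → rk y < 3)
    (hc : Fintype.card ((Leaf d 2 → Fin 5) × Mark d 2) < 2 ^ 50)
    (hn : ∀ t : Fin 5, t ≠ 4 → #{y : Leaf d 2 | ty y = t} = ![1, 1, 1, 2, 0] t)
    (hp : big (b4 true) d wt Q3 / (2 ^ 50) ^ 77 % 2 ^ 50 = p)
    (hq : big (b4 true) d wt (fun _ => true) / (2 ^ 50) ^ 77 % 2 ^ 50 = q) :
    1 - (p : ℝ) / q ≤ α d k := by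
  have hE : ∑ y : Leaf d 2, wt (ty y) = 77 := by
    simp [sum_cnt, Fin.sum_univ_five, hn, wt]
  rw [← ratio _ ty hρ (hb4 true) wt (fun w hw => ?_) hc Q3 hE hp hq]
  · exact gen (by simp) ty hρ x hx ((ncard_le hρ 3 h3).trans hk)
  have h1 := sum_cnt w fun _ => 1
  have h2 := sum_cnt (ty (d := d)) fun _ => 1
  rw [hE, sum_cnt] at hw
  rw [h1] at h2
  simp [Fin.sum_univ_five, hn, wt] at hw h2
  have : ∀ a b c e : ℕ, a * 19 + b * 12 + c * 18 + e * 14 = 77 → a = 1 ∧ b = 1 ∧ c = 1 ∧ e = 2 :=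
    fun a b c e h => by
      obtain rfl | rfl | rfl | rfl | rfl : c = 0 ∨ c = 1 ∨ c = 2 ∨ c = 3 ∨ c = 4 := by omega
      all_goals omega
  obtain ⟨h3, h4, h5, h6⟩ := this _ _ _ _ hw
  simp [Fin.forall_fin_succ, hn, h3, h4, h5, h6] at h2 ⊢
  exact h2

theorem hc (d : ℕ) (h : 5 ^ (d * d) * (d * d ^ d) < 2 ^ 50) :
    Fintype.card ((Leaf d 2 → Fin 5) × Mark d 2) < 2 ^ 50 := by
  rw [← Nat.card_eq_fintype_card]
  simpa [Leaf, Mark, Nat.card_fun] using h

theorem c3 {k : ℕ} (hk : 3 ≤ k) : 1 - (281394 : ℕ) / (612360 : ℕ) ≤ α 3 k :=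
  two hk (by decide) (0, 2, ()) (by decide) (by decide) (hc 3 (by simp)) (by decide)
    (by decide +kernel) (by decide +kernel)

theorem c4 {k : ℕ} (hk : 3 ≤ k) : 1 - (113541120 : ℕ) / (268369920 : ℕ) ≤ α 4 k :=
  two hk (by decide) (0, 2, ()) (by decide) (by decide) (hc 4 (by simp)) (by decide)
    (by decide +kernel) (by decide +kernel)

theorem one {d : ℕ} (T : Leaf d 1 → Leaf d 1 → Prop) (h : ∀ x, ∃ y, y ≠ x ∧ ¬ T x y)
    (S : Set (Leaf d 1)) : r d 1 T S = S.ncard / d := by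
  have h1 (σ : Equiv.Perm (Leaf d 1)) (μ : Mark d 1) : win T 1 σ μ = σ (μ.1, ()) := by
    simp only [win]
    rw [dif_neg]
    rintro ⟨i, hi⟩
    obtain ⟨y, h1, h2⟩ := h (σ (i, ()))
    obtain ⟨⟨j, _⟩, rfl⟩ := σ.surjective y
    exact h2 (hi j h1)
  have e : {z : Equiv.Perm (Leaf d 1) × Mark d 1 // win T 1 z.1 z.2 ∈ S} ≃
      Equiv.Perm (Leaf d 1) × S :=
    { toFun := fun z => (z.1.1, ⟨_, z.2⟩)
      invFun := fun z => ⟨(z.1, ((z.1.symm z.2).1, fun _ => ())), by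
        rw [h1]; exact (z.1.apply_symm_apply _).symm ▸ z.2.2⟩
      left_inv := fun z => by simp [h1]; rfl
      right_inv := fun z => Prod.ext rfl (Subtype.ext ((h1 _ _).trans (z.1.apply_symm_apply _))) }
  rw [r, Nat.card_congr e, Nat.card_prod, Nat.card_prod, Nat.card_coe_set_eq,
    show Nat.card (Mark d 1) = d by simp [Mark]]
  push_cast
  exact mul_div_mul_left _ _ (by exact_mod_cast Nat.card_pos.ne')

theorem result (k d : ℕ) (hk : 3 ≤ k) (hd : k ≤ d) : 227 / 420 ≤ α d k := by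
  obtain rfl | rfl | ⟨n, rfl⟩ : d = 3 ∨ d = 4 ∨ ∃ n, d = n + 5 := by
    rcases d with _ | _ | _ | _ | _ | n <;> simp <;> omega
  · exact le_trans (by norm_num) (c3 hk)
  · exact le_trans (by norm_num) (c4 hk)
  let ρ (x : Leaf (n + 5) 1) : ℕ := x.1
  have hρ : Injective ρ := fun x y e => Prod.ext (Fin.ext e) rfl
  let τ (x : Leaf (n + 5) 1) : Fin 5 := [0, 2, 3].getD (ρ x) 4
  have h0 (x : Leaf (n + 5) 1) : τ x = 0 ∧ ρ x = 0 ∨ τ x = 2 ∧ ρ x = 1 ∨ τ x = 3 ∨ τ x = 4 := by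
    simp only [τ]
    rcases ρ x with _ | _ | _ | m <;> simp
  have hS := ncard_le hρ (S := {y | Q3 (τ y)}) 2 fun x hx => by
    rcases h0 x with h | h | h | h <;> simp_all [Q3]
  refine le_trans ?_ (gen le_rfl τ hρ (1, ()) (fun y => ⟨fun e => hρ ?_, by rintro rfl; rfl⟩)
    (by omega))
  · rw [one _ fun x => ?_]
    · have : ((n + 5 : ℕ) : ℝ) ≥ 5 := by exact_mod_cast Nat.le_add_left 5 n
      have : ({y | Q3 (τ y)}.ncard : ℝ) ≤ 2 := by exact_mod_cast hS
      rw [le_sub_comm, div_le_iff₀ (by positivity)]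
      linarith
    have (y : Leaf (n + 5) 1) (h : τ x ≠ τ y ∧ ¬ b4 true (τ x) (τ y)) :
        ∃ y, y ≠ x ∧ ¬ lift (b4 true) τ ρ x y :=
      ⟨y, fun e => h.1 (e ▸ rfl), by simpa [lift, h.1] using h.2⟩
    rcases h0 x with ⟨h, -⟩ | ⟨h, -⟩ | h | h
    · exact this (2, ()) (by rw [h, show τ (2, ()) = 3 from rfl]; decide)
    · exact this (0, ()) (by rw [h, show τ (0, ()) = 0 from rfl]; decide)
    · exact this (1, ()) (by rw [h, show τ (1, ()) = 2 from rfl]; decide)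
    · exact this (0, ()) (by rw [h, show τ (0, ()) = 0 from rfl]; decide)
  · rcases h0 y with h | h | h | h <;> simp_all
    rfl

end Pool.Agent.Results.MP_5ab447_lc.Bound
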